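import Pool.Agent.Q201.Dist2

/-!
# A distributionally chaotic semigroup with a dense set of null orbits that is not
`f`-distributionally chaotic for `f(t) = 1 + t²`
-/

set_option autoImplicit false

open Filter Topology MeasureTheory
open scoped ENNReal

namespace Pool.Agent.Results.MP_8cea72_an.FDistributionalChaos

open Pool.Agent.Q201.Dist

/-- The class `F`: increasing maps `f : [0, ∞) → [1, ∞)` with `liminf f(t)/t > 0`. -/
def ClassF (f : ℝ → ℝ) : Prop :=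
  StrictMonoOn f (Set.Ici 0) ∧ (∀ t, 0 ≤ t → 1 ≤ f t) ∧
    0 < liminf (fun t : ℝ => ENNReal.ofReal (f t) / ENNReal.ofReal t) atTop

/-- The lower `f`-density of `A`: `liminf_{t → ∞} m(A ∩ [0, f(t)]) / t`. -/
noncomputable def lowerDensity (f : ℝ → ℝ) (A : Set ℝ) : ℝ≥0∞ :=
  liminf (fun t : ℝ => volume (A ∩ Set.Icc 0 (f t)) / ENNReal.ofReal t) atTop

/-- A strongly continuous semigroup `(T(t))_{t ≥ 0}` of bounded operators (only the values at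
`t ≥ 0` matter). -/
def IsSemigroup {𝕂 X : Type} [RCLike 𝕂] [NormedAddCommGroup X] [NormedSpace 𝕂 X]
    (T : ℝ → X →L[𝕂] X) : Prop :=
  T 0 = 1 ∧ (∀ s t, 0 ≤ s → 0 ≤ t → T (s + t) = T s * T t) ∧
    ∀ x, ContinuousOn (fun t => T t x) (Set.Ici 0)

/-- `f`-distributional chaos. -/
def DistrChaotic {𝕂 X : Type} [RCLike 𝕂] [NormedAddCommGroup X] [NormedSpace 𝕂 X]
    (f : ℝ → ℝ) (T : ℝ → X →L[𝕂] X) : Prop :=
  ∃ S : Set X, ¬ S.Countable ∧ ∃ σ : ℝ, 0 < σ ∧ ∀ ε : ℝ, 0 < ε → ∀ x ∈ S, ∀ y ∈ S, x ≠ y →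
    lowerDensity f {t | 0 ≤ t ∧ dist (T t x) (T t y) < σ} = 0 ∧
    lowerDensity f {t | 0 ≤ t ∧ ε ≤ dist (T t x) (T t y)} = 0

/-- A dense linear subspace of vectors whose orbits tend to `0`. -/
def DenseNullOrbits {𝕂 X : Type} [RCLike 𝕂] [NormedAddCommGroup X] [NormedSpace 𝕂 X]
    (T : ℝ → X →L[𝕂] X) : Prop :=
  ∃ X₀ : Submodule 𝕂 X, Dense (X₀ : Set X) ∧ ∀ x ∈ X₀, Tendsto (fun t => T t x) atTop (𝓝 0)

/-- The Banach space `ℓ¹` of sequences of pairs. -/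
abbrev Sp (𝕂 : Type) [RCLike 𝕂] : Type := lp (fun _ : ℕ => 𝕂 × 𝕂) 1

theorem dens_large {𝕂 : Type} [RCLike 𝕂] (c : 𝕂) (hc : c ≠ 0) (σ : ℝ) :
    lowerDensity (fun t => 1 + t) {t | 0 ≤ t ∧ ‖U 𝕂 t (c • y 𝕂)‖ < σ} = 0 := by
  have hφ : Tendsto (fun k : ℕ => 4 ^ k * P k - 1) atTop atTop := by
    refine tendsto_atTop_add_const_right _ (-1) (tendsto_atTop_mono (fun k => ?_) P_tendsto)
    have h1 : (1 : ℝ) ≤ 4 ^ k := one_le_pow₀ (by norm_num)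
    have h2 := P_pos k
    nlinarith
  refine liminf_zero _ (fun k : ℕ => 4 ^ k * P k - 1) hφ _ r1_tendsto ?_
  filter_upwards [large_times c hc σ] with k hk
  have h0 : ({t : ℝ | 0 ≤ t ∧ ‖U 𝕂 t (c • y 𝕂)‖ < σ} ∩ Set.Icc 0 (1 + (4 ^ k * P k - 1))) ⊆
      Set.Icc 0 (2 ^ k * P k) := by
    rintro t ⟨⟨ht0, ht1⟩, ht2, ht3⟩
    refine ⟨ht0, ?_⟩
    by_contra hlt
    exact absurd ht1 (not_lt.2 (hk t (not_le.1 hlt).le (by linarith)))
  refine ENNReal.div_le_of_le_mul ?_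
  rw [← ENNReal.ofReal_mul (by positivity)]
  refine (measure_mono h0).trans ?_
  rw [Real.volume_Icc, sub_zero]
  exact ENNReal.ofReal_le_ofReal (ratio1 k)

theorem dens_small {𝕂 : Type} [RCLike 𝕂] (z : Sp 𝕂) (ε : ℝ) (hε : 0 < ε) :
    lowerDensity (fun t => 1 + t) {t | 0 ≤ t ∧ ε ≤ ‖U 𝕂 t z‖} = 0 := by
  have hφ : Tendsto (fun k : ℕ => P (k + 1) - 1) atTop atTop :=
    tendsto_atTop_add_const_right _ (-1) ((tendsto_add_atTop_iff_nat 1).2 P_tendsto)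
  refine liminf_zero _ (fun k : ℕ => P (k + 1) - 1) hφ _ r1_tendsto ?_
  filter_upwards [small_times z ε hε] with k hk
  have h0 : ({t : ℝ | 0 ≤ t ∧ ε ≤ ‖U 𝕂 t z‖} ∩ Set.Icc 0 (1 + (P (k + 1) - 1))) ⊆
      Set.Icc 0 (M k) := by
    rintro t ⟨⟨ht0, ht1⟩, ht2, ht3⟩
    refine ⟨ht0, ?_⟩
    by_contra hlt
    exact absurd (hk t (not_le.1 hlt).le (by linarith)) (not_lt.2 ht1)
  refine ENNReal.div_le_of_le_mul ?_
  rw [← ENNReal.ofReal_mul (by positivity)]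
  refine (measure_mono h0).trans ?_
  rw [Real.volume_Icc, sub_zero]
  exact ENNReal.ofReal_le_ofReal (ratio2 k)

theorem dens_pos {𝕂 : Type} [RCLike 𝕂] (z : Sp 𝕂) (σ : ℝ) (hσ : 0 < σ) :
    lowerDensity (fun t => 1 + t ^ 2) {t | 0 ≤ t ∧ ‖U 𝕂 t z‖ < σ} ≠ 0 := by
  obtain ⟨K, hK⟩ := (small_times z σ hσ).exists_forall_of_atTop
  have h1 : ∀ᶠ t : ℝ in atTop, (1 : ℝ≥0∞) ≤
      volume ({t | 0 ≤ t ∧ ‖U 𝕂 t z‖ < σ} ∩ Set.Icc 0 (1 + t ^ 2)) / ENNReal.ofReal t := by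
    filter_upwards [eventually_gt_atTop 0, eventually_ge_atTop (2 * M K)] with t ht0 ht1
    have hN : 2 * M K ≤ 1 + t ^ 2 := by nlinarith [sq_nonneg (t - 1)]
    rw [ENNReal.le_div_iff_mul_le (Or.inl (by positivity)) (Or.inl ENNReal.ofReal_ne_top), one_mul]
    obtain ⟨k, hk, h⟩ := window K t hN
    rcases h with ⟨h2, h3⟩ | ⟨h2, h3⟩
    · refine (ENNReal.ofReal_le_ofReal h3).trans ?_
      rw [← Real.volume_Icc]
      refine measure_mono fun s hs => ⟨⟨(M_pos k).le.trans hs.1, hK k hk s hs.1 (hs.2.trans h2)⟩,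
        (M_pos k).le.trans hs.1, hs.2⟩
    · refine (ENNReal.ofReal_le_ofReal h3).trans ?_
      rw [← Real.volume_Icc]
      refine measure_mono fun s hs => ⟨⟨(M_pos k).le.trans hs.1, hK k hk s hs.1 hs.2⟩,
        (M_pos k).le.trans hs.1, hs.2.trans h2⟩
  intro h0
  have h2 : (1 : ℝ≥0∞) ≤ 0 := by
    rw [← h0]
    exact le_liminf_of_le (by isBoundedDefault) h1
  exact absurd h2 (by norm_num)

/-- For `𝕂 = ℝ` or `ℂ` there is a strongly continuous semigroup on the separable Banach space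
`ℓ¹(ℕ, 𝕂²)` with a dense linear subspace of vectors with null orbits, which is distributionally
chaotic and is not `f`-distributionally chaotic for `f(t) = 1 + t²`, a function of the
class `F`. -/
theorem result (𝕂 : Type) [RCLike 𝕂] :
    ClassF (fun t => 1 + t ^ 2) ∧
    ∃ T : ℝ → Sp 𝕂 →L[𝕂] Sp 𝕂, IsSemigroup T ∧ DenseNullOrbits T ∧
      DistrChaotic (fun t => 1 + t) T ∧ ¬ DistrChaotic (fun t => 1 + t ^ 2) T := by
  refine ⟨⟨?_, ?_, ?_⟩, U 𝕂, ⟨U_zero, U_add, U_cont⟩,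
    ⟨X0 𝕂, X0_dense, fun x ⟨K, hK⟩ => null_orbit x K hK⟩, ?_, ?_⟩
  · intro a ha b hb hab
    have ha' : (0 : ℝ) ≤ a := ha
    simp only
    nlinarith
  · intro t _
    nlinarith [sq_nonneg t]
  · refine lt_of_lt_of_le (by norm_num : (0 : ℝ≥0∞) < 1) (le_liminf_of_le (by isBoundedDefault) ?_)
    filter_upwards [eventually_gt_atTop (0 : ℝ)] with t ht
    rw [ENNReal.le_div_iff_mul_le (Or.inl (by positivity)) (Or.inl ENNReal.ofReal_ne_top), one_mul]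
    exact ENNReal.ofReal_le_ofReal (by nlinarith [sq_nonneg (t - 1)])
  · refine ⟨Set.range fun c : ℝ => ((c : 𝕂)) • y 𝕂, uncountable_line, 1, one_pos, ?_⟩
    rintro ε hε _ ⟨a, rfl⟩ _ ⟨b, rfl⟩ hne
    have hab : ((a : 𝕂) - (b : 𝕂)) ≠ 0 := by
      intro h
      apply hne
      simp only [sub_eq_zero.1 h]
    have e : ∀ t, dist (U 𝕂 t ((a : 𝕂) • y 𝕂)) (U 𝕂 t ((b : 𝕂) • y 𝕂)) =
        ‖U 𝕂 t (((a : 𝕂) - (b : 𝕂)) • y 𝕂)‖ := by
      intro t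
      rw [dist_eq_norm, sub_smul, map_sub]
    simp only [e]
    exact ⟨dens_large _ hab 1, dens_small _ ε hε⟩
  · rintro ⟨S, hS, σ, hσ, h⟩
    have hnt : S.Nontrivial := by
      by_contra hn
      exact hS (Set.not_nontrivial_iff.1 hn).countable
    obtain ⟨x, hx, y, hy, hne⟩ := hnt
    have h1 := (h 1 one_pos x hx y hy hne).1
    have e : ∀ t, dist (U 𝕂 t x) (U 𝕂 t y) = ‖U 𝕂 t (x - y)‖ := by
      intro t
      rw [dist_eq_norm, map_sub]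
    simp only [e] at h1
    exact dens_pos (x - y) σ hσ h1

end Pool.Agent.Results.MP_8cea72_an.FDistributionalChaos
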